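import Pool.Agent.Work.MP_db9399_oc.Interface
import Pool.Agent.Work.MP_db9399_hug_helper62.Prob

/-!
# MP_db9399, OCB4, block DEL (helper83): random picks and deletion
-/

set_option autoImplicit false

namespace Pool.Agent.Work.MP_db9399_oc.helper83

open Finset Classical
open Pool.Agent.Work.MP_db9399_all (pr DepOnI)
open Pool.Agent.Work.MP_db9399_en (ex ex_mono markov)
open Pool.Agent.Work.MP_db9399_ow.helper12s (prc)
open Pool.Agent.Work.MP_db9399_hug (pickV sum_pick card_pick cheb)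

universe u v

section gen
variable {J : Type u} [Fintype J] {M : ℕ}

/-- weighted version of one more coordinate -/
theorem stepW (j : J) (A : (J → Fin M) → ℝ)
    (h0 : ∀ f, 0 ≤ A f)
    (hA' : ∀ f f', (∀ i, i ≠ j → f i = f' i) → A f = A f')
    (bad : (J → Fin M) → Finset (Fin M))
    (hb' : ∀ f f', (∀ i, i ≠ j → f i = f' i) → bad f = bad f') {β : ℝ}
    (hc : ∀ f, ((bad f).card : ℝ) ≤ β * M) (hM : 0 < M) :
    ∑ f : J → Fin M, A f * (if f j ∈ bad f then 1 else 0) ≤ β * ∑ f : J → Fin M, A f := by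
  have hMR : (0 : ℝ) < M := by exact_mod_cast hM
  let e : ((J → Fin M) × Fin M) ≃ ((J → Fin M) × Fin M) :=
    { toFun := fun q => (Function.update q.1 j q.2, q.1 j)
      invFun := fun q => (Function.update q.1 j q.2, q.1 j)
      left_inv := fun q => by
        refine Prod.ext ?_ ?_
        · funext i
          by_cases hi : i = j
          · subst hi; simp
          · simp [Function.update_of_ne hi]
        · simp
      right_inv := fun q => by
        refine Prod.ext ?_ ?_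
        · funext i
          by_cases hi : i = j
          · subst hi; simp
          · simp [Function.update_of_ne hi]
        · simp }
  have hA : ∀ f c, A (Function.update f j c) = A f := fun f c =>
    hA' _ _ fun i hi => Function.update_of_ne hi _ _
  have hb : ∀ f c, bad (Function.update f j c) = bad f := fun f c =>
    hb' _ _ fun i hi => Function.update_of_ne hi _ _
  have h1 : ∑ q : (J → Fin M) × Fin M, A q.1 * (if q.1 j ∈ bad q.1 then 1 else 0) =
      ∑ q : (J → Fin M) × Fin M, A q.1 * (if q.2 ∈ bad q.1 then 1 else 0) := by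
    rw [← Equiv.sum_comp e]
    refine sum_congr rfl fun q _ => ?_
    change A (Function.update q.1 j q.2) * (if (Function.update q.1 j q.2) j ∈
      bad (Function.update q.1 j q.2) then 1 else 0) = _
    rw [hA, hb, Function.update_self]
  rw [Fintype.sum_prod_type, Fintype.sum_prod_type] at h1
  have h2 : ∑ f : J → Fin M, ∑ _c : Fin M, A f * (if f j ∈ bad f then 1 else 0) =
      M * ∑ f : J → Fin M, A f * (if f j ∈ bad f then 1 else 0) := by
    rw [mul_sum]
    refine sum_congr rfl fun f _ => ?_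
    rw [sum_const, card_univ, Fintype.card_fin, nsmul_eq_mul]
  have h3 : ∑ f : J → Fin M, ∑ c : Fin M, A f * (if c ∈ bad f then 1 else 0) ≤
      ∑ f : J → Fin M, A f * (β * M) := by
    refine sum_le_sum fun f _ => ?_
    rw [← mul_sum]
    refine mul_le_mul_of_nonneg_left ?_ (h0 f)
    refine le_trans (le_of_eq ?_) (hc f)
    rw [sum_boole, filter_mem_eq_inter, univ_inter]
  have h4 : (M : ℝ) * ∑ f : J → Fin M, A f * (if f j ∈ bad f then 1 else 0) ≤
      M * (β * ∑ f : J → Fin M, A f) := by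
    rw [← h2, h1]
    refine h3.trans (le_of_eq ?_)
    rw [← sum_mul]
    ring
  exact le_of_mul_le_mul_left h4 hMR

/-- exponential moment of the number of bad coordinates -/
theorem mgfP (hM : 0 < M) {r : ℕ} (j : Fin r → J) (hj : Function.Injective j)
    (bad : Fin r → (J → Fin M) → Finset (Fin M))
    (hb : ∀ k k', k ≤ k' → ∀ f f', (∀ i, i ≠ j k' → f i = f' i) → bad k f = bad k f') {β : ℝ}
    (hβ : 0 ≤ β) (hc : ∀ k f, ((bad k f).card : ℝ) ≤ β * M) (n : ℕ) (hn : n ≤ r) :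
    ∑ f : J → Fin M, ∏ k : Fin r, (if (k : ℕ) < n ∧ f (j k) ∈ bad k f then (4 : ℝ) else 1) ≤
      (1 + 3 * β) ^ n * Fintype.card (J → Fin M) := by
  induction n with
  | zero =>
    have h1 : ∀ f : J → Fin M, ∏ k : Fin r,
        (if (k : ℕ) < 0 ∧ f (j k) ∈ bad k f then (4 : ℝ) else 1) = 1 := by
      intro f
      refine prod_eq_one fun k _ => ?_
      rw [if_neg (fun h => Nat.not_lt_zero _ h.1)]
    rw [sum_congr rfl fun f _ => h1 f, sum_const, card_univ, nsmul_eq_mul, pow_zero]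
    simp
  | succ n ih =>
    have hnr : n < r := by omega
    set A : (J → Fin M) → ℝ := fun f => ∏ k : Fin r,
      (if (k : ℕ) < n ∧ f (j k) ∈ bad k f then (4 : ℝ) else 1) with hA
    have hA0 : ∀ f, 0 ≤ A f := fun f => prod_nonneg fun k _ => by split_ifs <;> norm_num
    have hAd : ∀ f f', (∀ i, i ≠ j ⟨n, hnr⟩ → f i = f' i) → A f = A f' := by
      intro f f' hff
      refine prod_congr rfl fun k _ => ?_
      by_cases hk : (k : ℕ) < n
      · have h3 : k ≤ ⟨n, hnr⟩ := by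
          rw [Fin.le_def]
          exact hk.le
        rw [hb k ⟨n, hnr⟩ h3 f f' hff, hff (j k)]
        intro h4
        have := hj h4
        rw [this] at hk
        exact lt_irrefl _ hk
      · rw [if_neg (fun h => hk h.1), if_neg (fun h => hk h.1)]
    have hs : ∀ f : J → Fin M, ∏ k : Fin r,
        (if (k : ℕ) < n + 1 ∧ f (j k) ∈ bad k f then (4 : ℝ) else 1) =
        A f + 3 * (A f * (if f (j ⟨n, hnr⟩) ∈ bad ⟨n, hnr⟩ f then 1 else 0)) := by
      intro f
      have h1 : ∀ k : Fin r, (if (k : ℕ) < n + 1 ∧ f (j k) ∈ bad k f then (4 : ℝ) else 1) =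
          (if (k : ℕ) < n ∧ f (j k) ∈ bad k f then (4 : ℝ) else 1) *
          (if k = ⟨n, hnr⟩ then (if f (j k) ∈ bad k f then 4 else 1) else 1) := by
        intro k
        rcases lt_trichotomy (k : ℕ) n with h | h | h
        · have e1 : k ≠ ⟨n, hnr⟩ := fun h' => by
            rw [h'] at h
            exact lt_irrefl _ h
          rw [if_neg e1, mul_one]
          by_cases h2 : f (j k) ∈ bad k f
          · rw [if_pos ⟨by omega, h2⟩, if_pos ⟨h, h2⟩]
          · rw [if_neg (fun h3 => h2 h3.2), if_neg (fun h3 => h2 h3.2)]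
        · have e1 : k = ⟨n, hnr⟩ := Fin.ext h
          rw [if_pos e1, if_neg (fun h3 : (k : ℕ) < n ∧ _ => by omega), one_mul]
          by_cases h2 : f (j k) ∈ bad k f
          · rw [if_pos ⟨by omega, h2⟩, if_pos h2]
          · rw [if_neg (fun h3 => h2 h3.2), if_neg h2]
        · have e1 : k ≠ ⟨n, hnr⟩ := fun h' => by
            rw [h'] at h
            exact lt_irrefl _ h
          rw [if_neg e1, if_neg (fun h3 : (k : ℕ) < n + 1 ∧ _ => by omega),
            if_neg (fun h3 : (k : ℕ) < n ∧ _ => by omega), one_mul]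
      rw [prod_congr rfl fun k _ => h1 k, prod_mul_distrib, prod_ite_eq' univ,
        if_pos (mem_univ _)]
      change A f * _ = _
      by_cases h2 : f (j ⟨n, hnr⟩) ∈ bad ⟨n, hnr⟩ f
      · rw [if_pos h2, if_pos h2]; ring
      · rw [if_neg h2, if_neg h2]; ring
    rw [sum_congr rfl fun f _ => hs f, sum_add_distrib, ← mul_sum]
    have h1 := stepW (j ⟨n, hnr⟩) A hA0 hAd (bad ⟨n, hnr⟩) (hb _ _ le_rfl) (hc _) hM
    have h2 := ih (by omega)
    have h3 : ∑ f : J → Fin M, A f + 3 * ∑ f : J → Fin M,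
        (A f * (if f (j ⟨n, hnr⟩) ∈ bad ⟨n, hnr⟩ f then 1 else 0)) ≤
        (1 + 3 * β) * ∑ f : J → Fin M, A f := by linarith
    refine h3.trans ?_
    rw [pow_succ, mul_comm ((1 + 3 * β) ^ n), mul_assoc]
    exact mul_le_mul_of_nonneg_left h2 (by positivity)

/-- more than half of the coordinates are bad -/
theorem halfP (hM : 0 < M) {r : ℕ} (j : Fin r → J) (hj : Function.Injective j)
    (bad : Fin r → (J → Fin M) → Finset (Fin M))
    (hb : ∀ k k', k ≤ k' → ∀ f f', (∀ i, i ≠ j k' → f i = f' i) → bad k f = bad k f')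
    (hc : ∀ k f, ((bad k f).card : ℝ) ≤ 26 / 100 * M) :
    prc (fun f : J → Fin M => r < 2 * (univ.filter (fun k => f (j k) ∈ bad k f)).card) ≤
      Real.exp (-((r : ℝ) / 10)) := by
  have h1 := mgfP hM j hj bad hb (by norm_num) hc r le_rfl
  have hcard : (0 : ℝ) < Fintype.card (J → Fin M) := by
    have : Nonempty (Fin M) := ⟨⟨0, hM⟩⟩
    exact_mod_cast Fintype.card_pos
  set F : (J → Fin M) → ℝ := fun f => ∏ k : Fin r,
    (if (k : ℕ) < r ∧ f (j k) ∈ bad k f then (4 : ℝ) else 1) with hF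
  have hF0 : ∀ f, 0 ≤ F f := fun f => prod_nonneg fun k _ => by split_ifs <;> norm_num
  have h2 : ex F ≤ (178 / 100) ^ r := by
    unfold ex
    rw [div_le_iff₀ hcard]
    refine h1.trans (le_of_eq ?_)
    norm_num
  have h3 := markov hM hF0 (t := (2 : ℝ) ^ r) (by positivity)
  have h4 : prc (fun f : J → Fin M => r < 2 * (univ.filter (fun k => f (j k) ∈ bad k f)).card) ≤
      pr (fun f : J → Fin M => (2 : ℝ) ^ r ≤ F f) := by
    unfold prc
    refine Pool.Agent.Work.MP_db9399_en.pr_mono fun f hf => ?_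
    have e1 : F f = 4 ^ (univ.filter (fun k => f (j k) ∈ bad k f)).card := by
      rw [hF]
      dsimp only
      rw [← prod_const, prod_filter]
      refine prod_congr rfl fun k _ => ?_
      by_cases h5 : f (j k) ∈ bad k f
      · rw [if_pos ⟨k.2, h5⟩, if_pos h5]
      · rw [if_neg (fun h6 => h5 h6.2), if_neg h5]
    rw [e1, show (4 : ℝ) = 2 ^ 2 by norm_num, ← pow_mul]
    exact pow_le_pow_right₀ (by norm_num) hf.le
  refine h4.trans (h3.trans ?_)
  have h5 : ex F / 2 ^ r ≤ (178 / 100) ^ r / 2 ^ r :=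
    div_le_div_of_nonneg_right h2 (by positivity)
  refine h5.trans ?_
  rw [← div_pow]
  have h6 : (178 / 100 / 2 : ℝ) ≤ Real.exp (-(1 / 10)) := by
    have := Real.add_one_le_exp (-(1 / 10 : ℝ))
    linarith
  calc (178 / 100 / 2 : ℝ) ^ r ≤ Real.exp (-(1 / 10)) ^ r :=
        pow_le_pow_left₀ (by norm_num) h6 _
    _ = Real.exp (-((r : ℝ) / 10)) := by
      rw [← Real.exp_nat_mul]
      congr 1
      ring

end gen

/-- the picks -/
abbrev Sl {Γ : Type u} (p : Γ → ℕ) : Type u := Σ g : Γ, Fin (p g)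

/-- hypotheses of the core lemma -/
structure DH {Γ V K : Type u} [Fintype Γ] [Fintype V] [Fintype K] (A : Γ → Finset V) (p : Γ → ℕ)
    (Bd : Γ → V → Γ → V → Prop) (Nb : Γ → Finset Γ) (w : K → Γ → V → ℝ) (Su : K → Finset Γ)
    (μ W : K → ℝ) (Λ L B : ℝ) : Prop where
  A0 : ∀ g, (A g).Nonempty
  Λ0 : 0 < Λ
  L0 : 0 < L
  B0 : 0 ≤ B
  pΛ : ∀ g, Λ ≤ p g
  pB : ∀ g, (p g : ℝ) ≤ B
  nb : ∀ g g', g ≠ g' → ∀ v ∈ A g, ∀ v' ∈ A g', Bd g v g' v' → g' ∈ Nb g
  D1 : ∀ g, ((Nb g).card : ℝ) ≤ B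
  D2 : ∀ g, ((univ.filter (fun h => g ∈ Nb h)).card : ℝ) ≤ B
  wmx : ∀ g g', g' ≠ g → ∀ v' ∈ A g',
    (((A g).filter (fun v => Bd g v g' v')).card : ℝ) ≤ (A g).card / Λ
  mux : ∀ g, ∑ g' ∈ (Nb g).filter (fun g' => g' ≠ g), (p g' : ℝ) *
    (∑ v' ∈ A g', (((A g).filter (fun v => Bd g v g' v')).card : ℝ)) / (A g').card ≤
      (A g).card / 10
  self : ∀ g, ∀ v' ∈ A g, 20 * (p g : ℝ) *
    ((A g).filter (fun v => v = v' ∨ Bd g v g v')).card ≤ (A g).card
  sym : ∀ g v w, Bd g v g w → Bd g w g v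
  w0 : ∀ k g v, 0 ≤ w k g v
  W0 : ∀ k, 0 < W k
  wW : ∀ k g v, w k g v ≤ W k
  μ0 : ∀ k, 0 ≤ μ k
  Su0 : ∀ k g, g ∉ Su k → ∀ v ∈ A g, w k g v = 0
  T1 : ∀ k, ((Su k).card : ℝ) ≤ B
  T2 : ∀ g, ((univ.filter (fun k => g ∈ Su k)).card : ℝ) ≤ B
  mtx : ∀ k, ∑ g ∈ Su k, (p g : ℝ) * (∑ v ∈ A g, w k g v) / (A g).card ≤ μ k
  ΛL : 75 * L ≤ Λ
  num : 64 * (B + 1) ^ 3 ≤ Real.exp (3 * L / 16)

section defs
variable {Γ V : Type u} [Fintype Γ] [Fintype V] (p : Γ → ℕ) (A : Γ → Finset V)
  (Bd : Γ → V → Γ → V → Prop) (Nb : Γ → Finset Γ) {M : ℕ} (q : Γ → Fin M → V)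

/-- vertices destroyed by other groups -/
noncomputable def ext (g : Γ) (f : Sl p → Fin M) : Finset V :=
  (A g).filter (fun v => ∃ j : Sl p, j.1 ∈ Nb g ∧ j.1 ≠ g ∧ Bd g v j.1 (q j.1 (f j)))

/-- vertices destroyed by earlier picks of the same group -/
noncomputable def slf (g : Γ) (k : Fin (p g)) (f : Sl p → Fin M) : Finset V :=
  (A g).filter (fun v => ∃ k' : Fin (p g), k' < k ∧ (v = q g (f ⟨g, k'⟩) ∨
    Bd g v g (q g (f ⟨g, k'⟩))))

/-- bad values of a pick -/
noncomputable def bad (g : Γ) (k : Fin (p g)) (f : Sl p → Fin M) : Finset (Fin M) :=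
  if 100 * (ext p A Bd Nb q g f).card ≤ 21 * (A g).card then
    univ.filter (fun c => q g c ∈ ext p A Bd Nb q g f ∪ slf p A Bd q g k f) else ∅

theorem ext_upd (g : Γ) (k : Fin (p g)) (f f' : Sl p → Fin M)
    (h : ∀ i, i ≠ (⟨g, k⟩ : Sl p) → f i = f' i) :
    ext p A Bd Nb q g f = ext p A Bd Nb q g f' := by
  unfold ext
  refine filter_congr fun v _ => exists_congr fun j => and_congr_right fun _ =>
    and_congr_right fun hj => ?_
  rw [h j]
  intro h'
  exact hj (by rw [h'])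

theorem slf_upd (g : Γ) (k k' : Fin (p g)) (hk : k ≤ k') (f f' : Sl p → Fin M)
    (h : ∀ i, i ≠ (⟨g, k'⟩ : Sl p) → f i = f' i) :
    slf p A Bd q g k f = slf p A Bd q g k f' := by
  unfold slf
  refine filter_congr fun v _ => exists_congr fun k2 => and_congr_right fun hk2 => ?_
  rw [h ⟨g, k2⟩]
  intro h'
  have h2 : k2 = k' := by simpa using h'
  rw [h2] at hk2
  exact absurd hk2 (not_lt.2 hk)

theorem bad_upd (g : Γ) (k k' : Fin (p g)) (hk : k ≤ k') (f f' : Sl p → Fin M)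
    (h : ∀ i, i ≠ (⟨g, k'⟩ : Sl p) → f i = f' i) :
    bad p A Bd Nb q g k f = bad p A Bd Nb q g k f' := by
  unfold bad
  rw [ext_upd p A Bd Nb q g k' f f' h, slf_upd p A Bd q g k k' hk f f' h]

end defs

/-- coordinates of a set of groups -/
noncomputable def co {Γ : Type u} [Fintype Γ] (p : Γ → ℕ) (S : Finset Γ) : Finset (Sl p) :=
  univ.filter (fun j => j.1 ∈ S)

section main
variable {Γ V K : Type u} [Fintype Γ] [Fintype V] [Fintype K] {A : Γ → Finset V} {p : Γ → ℕ}
  {Bd : Γ → V → Γ → V → Prop} {Nb : Γ → Finset Γ} {w : K → Γ → V → ℝ} {Su : K → Finset Γ}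
  {μ W : K → ℝ} {Λ L B : ℝ} {M : ℕ} {q : Γ → Fin M → V}

theorem sum_co (p : Γ → ℕ) (S : Finset Γ) (F : Sl p → ℝ) :
    ∑ j ∈ co p S, F j = ∑ g ∈ S, ∑ k : Fin (p g), F ⟨g, k⟩ := by
  rw [sum_sigma' S (fun g => (univ : Finset (Fin (p g)))) (fun g k => F ⟨g, k⟩)]
  refine sum_congr ?_ fun j _ => rfl
  ext j
  rw [co, mem_filter, mem_sigma]
  exact ⟨fun h => ⟨h.2, mem_univ _⟩, fun h => ⟨mem_univ _, h.1⟩⟩

theorem card_co (H : DH A p Bd Nb w Su μ W Λ L B) (S : Finset Γ) {n : ℝ}
    (hS : (S.card : ℝ) ≤ n) : ((co p S).card : ℝ) ≤ n * B := by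
  have h1 : ((co p S).card : ℝ) = ∑ j ∈ co p S, (1 : ℝ) := by
    rw [sum_const, nsmul_eq_mul, mul_one]
  rw [h1, sum_co p S]
  have h2 : ∀ g ∈ S, ∑ _k : Fin (p g), (1 : ℝ) ≤ B := by
    intro g _
    rw [sum_const, card_univ, Fintype.card_fin, nsmul_eq_mul, mul_one]
    exact H.pB g
  refine (sum_le_sum h2).trans ?_
  rw [sum_const, nsmul_eq_mul]
  exact mul_le_mul_of_nonneg_right hS H.B0

theorem slf_card (H : DH A p Bd Nb w Su μ W Λ L B) (hq : ∀ g c, q g c ∈ A g) (g : Γ)
    (k : Fin (p g)) (f : Sl p → Fin M) :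
    ((slf p A Bd q g k f).card : ℝ) ≤ (A g).card / 20 := by
  have hx : (0 : ℝ) < p g := lt_of_lt_of_le H.Λ0 (H.pΛ g)
  have h1 : slf p A Bd q g k f ⊆ (univ : Finset (Fin (p g))).biUnion (fun k' =>
      (A g).filter (fun v => v = q g (f ⟨g, k'⟩) ∨ Bd g v g (q g (f ⟨g, k'⟩)))) := by
    intro v hv
    obtain ⟨h2, k', -, h3⟩ := mem_filter.1 hv
    exact mem_biUnion.2 ⟨k', mem_univ _, mem_filter.2 ⟨h2, h3⟩⟩
  have h2 : ((slf p A Bd q g k f).card : ℝ) ≤ ∑ k' : Fin (p g),
      (((A g).filter (fun v => v = q g (f ⟨g, k'⟩) ∨ Bd g v g (q g (f ⟨g, k'⟩)))).card : ℝ) := by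
    exact_mod_cast (card_le_card h1).trans card_biUnion_le
  have h3 : 20 * (p g : ℝ) * ((slf p A Bd q g k f).card : ℝ) ≤
      ∑ _k' : Fin (p g), ((A g).card : ℝ) := by
    refine (mul_le_mul_of_nonneg_left h2 (by positivity)).trans ?_
    rw [mul_sum]
    exact sum_le_sum fun k' _ => H.self g _ (hq g _)
  rw [sum_const, card_univ, Fintype.card_fin, nsmul_eq_mul] at h3
  have h4 : (p g : ℝ) * (20 * ((slf p A Bd q g k f).card : ℝ)) ≤ p g * (A g).card := by
    linarith
  have h5 := le_of_mul_le_mul_left h4 hx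
  linarith

theorem bad_card (H : DH A p Bd Nb w Su μ W Λ L B) (hq : ∀ g c, q g c ∈ A g)
    (hr : ∀ g v, ((univ.filter (fun c => q g c = v)).card : ℝ) ≤ M / (A g).card) (g : Γ)
    (k : Fin (p g)) (f : Sl p → Fin M) :
    ((bad p A Bd Nb q g k f).card : ℝ) ≤ 26 / 100 * M := by
  have hL : (0 : ℝ) < (A g).card := by exact_mod_cast card_pos.2 (H.A0 g)
  unfold bad
  split_ifs with h
  · refine (card_pick (A g) (q g) (hr g) _).trans ?_
    have h1 : (((ext p A Bd Nb q g f ∪ slf p A Bd q g k f).card : ℕ) : ℝ) ≤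
        ((ext p A Bd Nb q g f).card : ℝ) + ((slf p A Bd q g k f).card : ℝ) := by
      exact_mod_cast card_union_le _ _
    have h2 := slf_card H hq g k f
    have h3 : 100 * ((ext p A Bd Nb q g f).card : ℝ) ≤ 21 * (A g).card := by exact_mod_cast h
    have h4 : (((ext p A Bd Nb q g f ∪ slf p A Bd q g k f).card : ℕ) : ℝ) ≤
        26 / 100 * (A g).card := by linarith
    calc (M : ℝ) / (A g).card * (((ext p A Bd Nb q g f ∪ slf p A Bd q g k f).card : ℕ) : ℝ) ≤
        M / (A g).card * (26 / 100 * (A g).card) := mul_le_mul_of_nonneg_left h4 (by positivity)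
      _ = 26 / 100 * M := by field_simp
  · rw [card_empty, Nat.cast_zero]
    positivity

/-- the number of the vertices destroyed by other groups -/
noncomputable def Z1 (p : Γ → ℕ) (A : Γ → Finset V) (Bd : Γ → V → Γ → V → Prop)
    (Nb : Γ → Finset Γ) (q : Γ → Fin M → V) (g : Γ) (f : Sl p → Fin M) : ℝ :=
  ∑ j ∈ co p ((Nb g).filter (fun g' => g' ≠ g)),
    (((A g).filter (fun v => Bd g v j.1 (q j.1 (f j)))).card : ℝ)

/-- the value of a test -/
noncomputable def Z3 (p : Γ → ℕ) (w : K → Γ → V → ℝ) (Su : K → Finset Γ)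
    (q : Γ → Fin M → V) (τ : K) (f : Sl p → Fin M) : ℝ :=
  ∑ j ∈ co p (Su τ), w τ j.1 (q j.1 (f j))

/-- number of bad picks -/
noncomputable def nbad (p : Γ → ℕ) (A : Γ → Finset V) (Bd : Γ → V → Γ → V → Prop)
    (Nb : Γ → Finset Γ) (q : Γ → Fin M → V) (g : Γ) (f : Sl p → Fin M) : ℕ :=
  (univ.filter (fun k : Fin (p g) => f ⟨g, k⟩ ∈ bad p A Bd Nb q g k f)).card

theorem ext_le (g : Γ) (f : Sl p → Fin M) :
    ((ext p A Bd Nb q g f).card : ℝ) ≤ Z1 p A Bd Nb q g f := by
  have h1 : ext p A Bd Nb q g f ⊆ (co p ((Nb g).filter (fun g' => g' ≠ g))).biUnion (fun j =>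
      (A g).filter (fun v => Bd g v j.1 (q j.1 (f j)))) := by
    intro v hv
    obtain ⟨h2, j, h3, h4, h5⟩ := mem_filter.1 hv
    exact mem_biUnion.2 ⟨j, mem_filter.2 ⟨mem_univ _, mem_filter.2 ⟨h3, h4⟩⟩,
      mem_filter.2 ⟨h2, h5⟩⟩
  unfold Z1
  exact_mod_cast (card_le_card h1).trans card_biUnion_le

theorem avg1 (hM : 0 < M) (hq : ∀ g c, q g c ∈ A g)
    (hr : ∀ g v, ((univ.filter (fun c => q g c = v)).card : ℝ) ≤ M / (A g).card) (S : Finset Γ)
    (φ : Γ → V → ℝ) (h0 : ∀ g v, 0 ≤ φ g v) :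
    ∑ j ∈ co p S, (∑ c : Fin M, φ j.1 (q j.1 c)) / M ≤
      ∑ g ∈ S, (p g : ℝ) * (∑ v ∈ A g, φ g v) / (A g).card := by
  have hMR : (0 : ℝ) < M := by exact_mod_cast hM
  rw [sum_co p S (fun j => (∑ c : Fin M, φ j.1 (q j.1 c)) / M)]
  refine sum_le_sum fun g' _ => ?_
  have h1 : (∑ c : Fin M, φ g' (q g' c)) / M ≤ (∑ v' ∈ A g', φ g' v') / (A g').card := by
    have h2 := sum_pick (A g') (q g') (hq g') (hr g') (φ g') (h0 g')
    rw [div_le_iff₀ hMR]
    refine h2.trans (le_of_eq ?_)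
    ring
  have h2 : ∑ _k : Fin (p g'), (∑ c : Fin M, φ g' (q g' c)) / (M : ℝ) =
      (p g' : ℝ) * ((∑ c : Fin M, φ g' (q g' c)) / M) := by
    rw [sum_const, card_univ, Fintype.card_fin, nsmul_eq_mul]
  refine (le_of_eq h2).trans ?_
  calc (p g' : ℝ) * ((∑ c : Fin M, φ g' (q g' c)) / M) ≤
      (p g' : ℝ) * ((∑ v' ∈ A g', φ g' v') / (A g').card) :=
        mul_le_mul_of_nonneg_left h1 (by positivity)
    _ = _ := by ring

theorem pr1 (H : DH A p Bd Nb w Su μ W Λ L B) (hM : 0 < M)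
    (hq : ∀ g c, q g c ∈ A g)
    (hr : ∀ g v, ((univ.filter (fun c => q g c = v)).card : ℝ) ≤ M / (A g).card) (g : Γ) :
    prc (fun f : Sl p → Fin M => 21 / 100 * ((A g).card : ℝ) ≤ Z1 p A Bd Nb q g f) ≤
      Real.exp (-(3 * L / 16)) := by
  have hL : (0 : ℝ) < (A g).card := by exact_mod_cast card_pos.2 (H.A0 g)
  have hΛ := H.Λ0
  have h1 := cheb (J := Sl p) hM (co p ((Nb g).filter (fun g' => g' ≠ g)))
    (fun j c => (((A g).filter (fun v => Bd g v j.1 (q j.1 c))).card : ℝ))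
    (B := (A g).card / Λ) (m := (A g).card / 10) (Λ := Λ / 400)
    (fun _ _ => Nat.cast_nonneg _) (by
      intro j hj c
      have h1 := mem_filter.1 (mem_filter.1 hj).2
      exact H.wmx g j.1 h1.2 _ (hq _ _)) (by positivity) (by positivity)
    (le_trans (avg1 hM hq hr ((Nb g).filter (fun g' => g' ≠ g))
      (fun g' v' => (((A g).filter (fun v => Bd g v g' v')).card : ℝ))
      (fun _ _ => Nat.cast_nonneg _)) (H.mux g)) (by positivity)
  have e : 2 * (((A g).card : ℝ) / 10) + 4 * ((A g).card / Λ) * (Λ / 400) =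
      21 / 100 * (A g).card := by
    field_simp
    ring
  rw [e] at h1
  refine h1.trans (Real.exp_le_exp.2 ?_)
  have := H.ΛL
  linarith

theorem pr2 (H : DH A p Bd Nb w Su μ W Λ L B) (hM : 0 < M)
    (hq : ∀ g c, q g c ∈ A g)
    (hr : ∀ g v, ((univ.filter (fun c => q g c = v)).card : ℝ) ≤ M / (A g).card) (g : Γ) :
    prc (fun f : Sl p → Fin M => p g < 2 * nbad p A Bd Nb q g f) ≤
      Real.exp (-(3 * L / 16)) := by
  have h1 := halfP hM (fun k : Fin (p g) => (⟨g, k⟩ : Sl p)) (fun k k' h => by simpa using h)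
    (bad p A Bd Nb q g) (bad_upd p A Bd Nb q g) (bad_card H hq hr g)
  refine h1.trans (Real.exp_le_exp.2 ?_)
  have h2 := H.ΛL
  have h3 := H.pΛ g
  have h4 := H.L0
  linarith

theorem pr3 (H : DH A p Bd Nb w Su μ W Λ L B) (hM : 0 < M)
    (hq : ∀ g c, q g c ∈ A g)
    (hr : ∀ g v, ((univ.filter (fun c => q g c = v)).card : ℝ) ≤ M / (A g).card) (τ : K) :
    prc (fun f : Sl p → Fin M => 2 * μ τ + W τ * L ≤ Z3 p w Su q τ f) ≤
      Real.exp (-(3 * L / 16)) := by
  have hW := H.W0 τ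
  have hL := H.L0
  have hμ := H.μ0 τ
  have h1 := cheb (J := Sl p) hM (co p (Su τ)) (fun j c => w τ j.1 (q j.1 c))
    (B := W τ) (m := μ τ + W τ * L / 8) (Λ := 3 * L / 16)
    (fun _ _ => H.w0 _ _ _) (fun j _ c => H.wW τ j.1 _) (H.W0 τ) (by positivity)
    (le_trans (avg1 hM hq hr (Su τ) (fun g v => w τ g v) (H.w0 τ))
      ((H.mtx τ).trans (by
        have : 0 ≤ W τ * L / 8 := by positivity
        linarith))) (by positivity)
  have e : 2 * (μ τ + W τ * L / 8) + 4 * W τ * (3 * L / 16) = 2 * μ τ + W τ * L := by ring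
  rw [e] at h1
  exact h1

theorem ext_dep (g : Γ) {f f' : Sl p → Fin M} (h : ∀ j ∈ co p (insert g (Nb g)), f j = f' j) :
    ext p A Bd Nb q g f = ext p A Bd Nb q g f' := by
  unfold ext
  refine filter_congr fun v _ => exists_congr fun j => and_congr_right fun hj => ?_
  rw [h j (mem_filter.2 ⟨mem_univ _, mem_insert_of_mem hj⟩)]

theorem nbad_dep (g : Γ) {f f' : Sl p → Fin M} (h : ∀ j ∈ co p (insert g (Nb g)), f j = f' j) :
    nbad p A Bd Nb q g f = nbad p A Bd Nb q g f' := by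
  have h0 : ∀ k : Fin (p g), f ⟨g, k⟩ = f' ⟨g, k⟩ := fun k =>
    h _ (mem_filter.2 ⟨mem_univ _, mem_insert_self _ _⟩)
  have h1 : ∀ k : Fin (p g), bad p A Bd Nb q g k f = bad p A Bd Nb q g k f' := by
    intro k
    unfold bad
    rw [ext_dep g h]
    have h2 : slf p A Bd q g k f = slf p A Bd q g k f' := by
      unfold slf
      refine filter_congr fun v _ => exists_congr fun k' => ?_
      rw [h0 k']
    rw [h2]
  unfold nbad
  simp only [h0, h1]

theorem Z1_dep (g : Γ) {f f' : Sl p → Fin M} (h : ∀ j ∈ co p (insert g (Nb g)), f j = f' j) :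
    Z1 p A Bd Nb q g f = Z1 p A Bd Nb q g f' := by
  unfold Z1
  refine sum_congr rfl fun j hj => ?_
  rw [h j (mem_filter.2 ⟨mem_univ _, mem_insert_of_mem
    (mem_filter.1 (mem_filter.1 hj).2).1⟩)]

end main

/-- change of the decidability instance -/
theorem filt_card {α : Type u} [Fintype α] (P : α → Prop) (i₁ i₂ : DecidablePred P) :
    ((@filter α P i₁ univ).card : ℝ) = ((@filter α P i₂ univ).card : ℝ) := by
  rw [Subsingleton.elim i₁ i₂]

/-- core lemma -/
theorem core {Γ V K : Type u} [Fintype Γ] [Fintype V] [Fintype K] {A : Γ → Finset V} {p : Γ → ℕ}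
    {Bd : Γ → V → Γ → V → Prop} {Nb : Γ → Finset Γ} {w : K → Γ → V → ℝ} {Su : K → Finset Γ}
    {μ W : K → ℝ} {Λ L B : ℝ} (H : DH A p Bd Nb w Su μ W Λ L B) :
    ∃ S : Γ → Finset V, (∀ γ, S γ ⊆ A γ) ∧ (∀ γ, p γ ≤ 2 * (S γ).card) ∧
      (∀ γ γ', ∀ v ∈ S γ, ∀ w ∈ S γ', γ ≠ γ' ∨ v ≠ w → ¬ Bd γ v γ' w) ∧
      ∀ k, ∑ γ, ∑ v ∈ S γ, w k γ v ≤ 2 * μ k + W k * L := by
  set M : ℕ := ∏ g, (A g).card with hMdef
  have hM : 0 < M := Finset.prod_pos fun g _ => card_pos.2 (H.A0 g)
  have hpick : ∀ g, ∃ q : Fin M → V, (∀ c, q c ∈ A g) ∧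
      ∀ v, ((univ.filter (fun c => q c = v)).card : ℝ) ≤ M / (A g).card := fun g =>
    pickV (A g) (card_pos.2 (H.A0 g)) (dvd_prod_of_mem (fun g => (A g).card) (mem_univ g))
  choose q hq hr using hpick
  have hB0 := H.B0
  have hins : ∀ g, ((insert g (Nb g)).card : ℝ) ≤ B + 1 := fun g => by
    have h1 : ((insert g (Nb g)).card : ℝ) ≤ (Nb g).card + 1 := by
      exact_mod_cast card_insert_le _ _
    linarith [H.D1 g]
  -- local lemma
  have hSYM := Pool.Agent.Work.MP_db9399_ow.helper21.stmt_SYM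
    (Pool.Agent.Work.MP_db9399_all.stmt_LLLI.{u})
  obtain ⟨f, hf⟩ := hSYM (Sl p) M (Γ ⊕ (Γ ⊕ K))
    (Sum.elim (fun g => co p (insert g (Nb g)))
      (Sum.elim (fun g => co p (insert g (Nb g))) (fun τ => co p (Su τ))))
    (Sum.elim (fun g f => 21 / 100 * ((A g).card : ℝ) ≤ Z1 p A Bd Nb q g f)
      (Sum.elim (fun g f => p g < 2 * nbad p A Bd Nb q g f)
        (fun τ f => 2 * μ τ + W τ * L ≤ Z3 p w Su q τ f)))
    (Real.exp (-(3 * L / 16))) ((B + 1) * B) (3 * (B + 1)) hM (by positivity)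
    (by positivity)
    (by
      rintro (g | g | τ)
      · intro a b hab
        simp only [Sum.elim_inl]
        rw [Z1_dep g hab]
      · intro a b hab
        simp only [Sum.elim_inl, Sum.elim_inr]
        rw [nbad_dep g hab]
      · intro a b hab
        simp only [Sum.elim_inr]
        have h1 : Z3 p w Su q τ a = Z3 p w Su q τ b := by
          unfold Z3
          exact sum_congr rfl fun j hj => by rw [hab j hj]
        rw [h1])
    (by
      rintro (g | g | τ)
      · exact card_co H _ (hins g)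
      · exact card_co H _ (hins g)
      · exact card_co H _ ((H.T1 τ).trans (by linarith)))
    (by
      intro y
      have h1 : (univ.filter (fun e : Γ ⊕ (Γ ⊕ K) => y ∈
          (Sum.elim (fun g => co p (insert g (Nb g)))
            (Sum.elim (fun g => co p (insert g (Nb g))) (fun τ => co p (Su τ))) e :
              Finset (Sl p)))) ⊆
          ((insert y.1 (univ.filter (fun h => y.1 ∈ Nb h))).image Sum.inl ∪
          (insert y.1 (univ.filter (fun h => y.1 ∈ Nb h))).image (fun g => Sum.inr (Sum.inl g))) ∪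
          (univ.filter (fun τ => y.1 ∈ Su τ)).image (fun τ => Sum.inr (Sum.inr τ)) := by
        have h2 : ∀ g, y ∈ co p (insert g (Nb g)) →
            g ∈ insert y.1 (univ.filter (fun h => y.1 ∈ Nb h)) := by
          intro g hg
          rcases mem_insert.1 (mem_filter.1 hg).2 with h3 | h3
          · rw [h3]
            exact mem_insert_self _ _
          · exact mem_insert_of_mem (mem_filter.2 ⟨mem_univ _, h3⟩)
        rintro (g | g | τ) he
        · exact mem_union_left _ (mem_union_left _ (mem_image.2 ⟨g, h2 g (mem_filter.1 he).2, rfl⟩))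
        · exact mem_union_left _ (mem_union_right _
            (mem_image.2 ⟨g, h2 g (mem_filter.1 he).2, rfl⟩))
        · have h3 : y ∈ co p (Su τ) := (mem_filter.1 he).2
          exact mem_union_right _ (mem_image.2 ⟨τ, mem_filter.2 ⟨mem_univ _,
            (mem_filter.1 h3).2⟩, rfl⟩)
      have h3 := (card_le_card h1).trans ((card_union_le _ _).trans
        (Nat.add_le_add ((card_union_le _ _).trans (Nat.add_le_add card_image_le card_image_le))
          card_image_le))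
      have h4 : (((insert y.1 (univ.filter (fun h => y.1 ∈ Nb h))).card : ℕ) : ℝ) ≤ B + 1 := by
        have h5 : (((insert y.1 (univ.filter (fun h => y.1 ∈ Nb h))).card : ℕ) : ℝ) ≤
            ((univ.filter (fun h => y.1 ∈ Nb h)).card : ℕ) + 1 := by
          exact_mod_cast card_insert_le _ _
        linarith [H.D2 y.1]
      have h5 := H.T2 y.1
      have h3' : (((univ.filter (fun e : Γ ⊕ (Γ ⊕ K) => y ∈
          (Sum.elim (fun g => co p (insert g (Nb g)))
            (Sum.elim (fun g => co p (insert g (Nb g))) (fun τ => co p (Su τ))) e :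
              Finset (Sl p)))).card : ℕ) : ℝ) ≤
          ((insert y.1 (univ.filter (fun h => y.1 ∈ Nb h))).card : ℕ) +
          ((insert y.1 (univ.filter (fun h => y.1 ∈ Nb h))).card : ℕ) +
          ((univ.filter (fun τ => y.1 ∈ Su τ)).card : ℕ) := by
        exact_mod_cast h3
      refine le_trans ?_ (h3'.trans (by linarith))
      exact le_of_eq (filt_card _ _ _))
    (Real.exp_pos _).le
    (by
      rintro (g | g | τ)
      · exact pr1 H hM hq hr g
      · exact pr2 H hM hq hr g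
      · exact pr3 H hM hq hr τ)
    (by
      have h1 := H.num
      have h2 : Real.exp (-(3 * L / 16)) * Real.exp (3 * L / 16) = 1 := by
        rw [← Real.exp_add]
        simp
      have h3 := Real.exp_pos (-(3 * L / 16))
      have h4 : 64 * (B + 1) ^ 3 * Real.exp (-(3 * L / 16)) ≤ 1 := by
        have := mul_le_mul_of_nonneg_right h1 h3.le
        rw [mul_comm (Real.exp (3 * L / 16)), h2] at this
        exact this
      have h5 : ((B + 1) * B + 1) * (3 * (B + 1) + 1) ≤ 4 * (B + 1) ^ 3 := by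
        nlinarith [mul_nonneg hB0 hB0, mul_nonneg (mul_nonneg hB0 hB0) hB0]
      have h6 : 16 * Real.exp (-(3 * L / 16)) * ((B + 1) * B + 1) * (3 * (B + 1) + 1) ≤
          16 * Real.exp (-(3 * L / 16)) * (4 * (B + 1) ^ 3) := by
        rw [mul_assoc (16 * Real.exp (-(3 * L / 16)))]
        exact mul_le_mul_of_nonneg_left h5 (by positivity)
      linarith)
  have f1 : ∀ g, 100 * (ext p A Bd Nb q g f).card ≤ 21 * (A g).card := by
    intro g
    have h1 := hf (Sum.inl g)
    simp only [Sum.elim_inl, not_le] at h1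
    have h2 := ext_le (A := A) (Bd := Bd) (Nb := Nb) (q := q) g f
    have h4 : 100 * ((ext p A Bd Nb q g f).card : ℝ) ≤ 21 * (A g).card := by linarith
    exact_mod_cast h4
  have f2 : ∀ g, 2 * nbad p A Bd Nb q g f ≤ p g := by
    intro g
    have h1 := hf (Sum.inr (Sum.inl g))
    simp only [Sum.elim_inl, Sum.elim_inr, not_lt] at h1
    exact h1
  have f3 : ∀ τ, Z3 p w Su q τ f < 2 * μ τ + W τ * L := by
    intro τ
    have h1 := hf (Sum.inr (Sum.inr τ))
    simp only [Sum.elim_inr, not_le] at h1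
    exact h1
  -- the good picks
  let G : ∀ g, Finset (Fin (p g)) := fun g =>
    univ.filter (fun k => f ⟨g, k⟩ ∉ bad p A Bd Nb q g k f)
  have hG : ∀ g, p g ≤ 2 * (G g).card := by
    intro g
    have h1 : (univ.filter (fun k : Fin (p g) => f ⟨g, k⟩ ∈ bad p A Bd Nb q g k f)).card +
        (G g).card = (univ : Finset (Fin (p g))).card :=
      card_filter_add_card_filter_not _
    have h2 := f2 g
    unfold nbad at h2
    rw [card_univ, Fintype.card_fin] at h1
    omega
  have hGe : ∀ g, ∀ k ∈ G g, q g (f ⟨g, k⟩) ∉ ext p A Bd Nb q g f ∧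
      q g (f ⟨g, k⟩) ∉ slf p A Bd q g k f := by
    intro g k hk
    have h1 := (mem_filter.1 hk).2
    unfold bad at h1
    rw [if_pos (f1 g), mem_filter, mem_union] at h1
    exact ⟨fun h => h1 ⟨mem_univ _, Or.inl h⟩, fun h => h1 ⟨mem_univ _, Or.inr h⟩⟩
  have hself : ∀ g, ∀ k ∈ G g, ∀ k' : Fin (p g), k' < k →
      ¬ (q g (f ⟨g, k⟩) = q g (f ⟨g, k'⟩) ∨ Bd g (q g (f ⟨g, k⟩)) g (q g (f ⟨g, k'⟩))) := by
    intro g k hk k' hkk h
    exact (hGe g k hk).2 (mem_filter.2 ⟨hq g _, k', hkk, h⟩)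
  have hinj : ∀ g, Set.InjOn (fun k : Fin (p g) => q g (f ⟨g, k⟩)) (G g : Set (Fin (p g))) := by
    intro g k hk k' hk' he
    rcases lt_trichotomy k k' with h | h | h
    · exact absurd (Or.inl he.symm) (hself g k' hk' k h)
    · exact h
    · exact absurd (Or.inl he) (hself g k hk k' h)
  refine ⟨fun g => (G g).image (fun k => q g (f ⟨g, k⟩)), ?_, ?_, ?_, ?_⟩
  · intro g v hv
    obtain ⟨k, -, rfl⟩ := mem_image.1 hv
    exact hq g _
  · intro g
    rw [card_image_of_injOn (hinj g)]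
    exact hG g
  · intro g g' v hv v' hv' hne hch
    obtain ⟨k, hk, rfl⟩ := mem_image.1 hv
    obtain ⟨k', hk', rfl⟩ := mem_image.1 hv'
    by_cases hgg : g = g'
    · subst hgg
      have hkk : k ≠ k' := by
        rintro rfl
        rcases hne with h | h
        · exact h rfl
        · exact h rfl
      rcases lt_or_gt_of_ne hkk with h | h
      · exact hself g k' hk' k h (Or.inr (H.sym _ _ _ hch))
      · exact hself g k hk k' h (Or.inr hch)
    · refine (hGe g k hk).1 (mem_filter.2 ⟨hq g _, ⟨g', k'⟩, ?_, fun h => hgg h.symm, hch⟩)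
      exact H.nb g g' hgg _ (hq g _) _ (hq g' _) hch
  · intro τ
    refine le_trans ?_ (f3 τ).le
    unfold Z3
    rw [sum_co]
    have h1 : ∑ g, ∑ v ∈ (G g).image (fun k => q g (f ⟨g, k⟩)), w τ g v =
        ∑ g ∈ Su τ, ∑ v ∈ (G g).image (fun k => q g (f ⟨g, k⟩)), w τ g v := by
      symm
      refine sum_subset (subset_univ _) fun g _ hg => ?_
      refine sum_eq_zero fun v hv => ?_
      obtain ⟨k, -, rfl⟩ := mem_image.1 hv
      exact H.Su0 τ g hg _ (hq g _)
    rw [h1]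
    refine sum_le_sum fun g _ => ?_
    calc ∑ v ∈ (G g).image (fun k => q g (f ⟨g, k⟩)), w τ g v
      _ = ∑ k ∈ G g, w τ g (q g (f ⟨g, k⟩)) := sum_image (hinj g)
      _ ≤ ∑ k : Fin (p g), w τ g (q g (f ⟨g, k⟩)) :=
          sum_le_sum_of_subset_of_nonneg (subset_univ _) fun _ _ _ => H.w0 _ _ _

/-- numbers -/
theorem nums (c r : ℝ) (hc : 0 < c) (hr : 0 < r) : ∃ d0 : ℕ, ∀ d : ℕ, d0 ≤ d →
    0 < d ∧ 0 < Real.log d ∧ 75 * (Real.log d) ^ 2 ≤ (d : ℝ) ^ c ∧
      64 * ((d : ℝ) ^ r + 1) ^ 3 ≤ Real.exp (3 * (Real.log d) ^ 2 / 16) := by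
  refine ⟨⌈Real.exp (max (16 * r + 40) (450 / c ^ 3))⌉₊, fun d hd => ?_⟩
  have h1 : Real.exp (max (16 * r + 40) (450 / c ^ 3)) ≤ d :=
    (Nat.le_ceil _).trans (by exact_mod_cast hd)
  have hd0 : (0 : ℝ) < d := lt_of_lt_of_le (Real.exp_pos _) h1
  have h2 : max (16 * r + 40) (450 / c ^ 3) ≤ Real.log d := by
    rw [Real.le_log_iff_exp_le hd0]
    exact h1
  set l := Real.log d with hl
  have h3 : 16 * r + 40 ≤ l := (le_max_left _ _).trans h2
  have h4 : 450 / c ^ 3 ≤ l := (le_max_right _ _).trans h2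
  have hl0 : 0 < l := by linarith
  have e1 : (d : ℝ) ^ c = Real.exp (c * l) := by
    rw [Real.rpow_def_of_pos hd0, mul_comm]
  have e2 : (d : ℝ) ^ r = Real.exp (r * l) := by
    rw [Real.rpow_def_of_pos hd0, mul_comm]
  refine ⟨by exact_mod_cast hd0, hl0, ?_, ?_⟩
  · rw [e1]
    have h5 := Real.pow_div_factorial_le_exp (c * l) (by positivity) 3
    refine le_trans ?_ h5
    have h6 : 450 ≤ c ^ 3 * l := by
      rw [div_le_iff₀ (by positivity)] at h4
      linarith
    have h7 : (Nat.factorial 3 : ℝ) = 6 := by norm_num [Nat.factorial]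
    rw [h7, le_div_iff₀ (by norm_num)]
    have h8 : 450 * l ^ 2 ≤ c ^ 3 * l * l ^ 2 := mul_le_mul_of_nonneg_right h6 (by positivity)
    nlinarith
  · rw [e2]
    have h5 : 1 ≤ Real.exp (r * l) := Real.one_le_exp (by positivity)
    have h6 : Real.exp (r * l) + 1 ≤ 2 * Real.exp (r * l) := by linarith
    have h7 : 64 * (Real.exp (r * l) + 1) ^ 3 ≤ 64 * (2 * Real.exp (r * l)) ^ 3 :=
      mul_le_mul_of_nonneg_left (pow_le_pow_left₀ (by positivity) h6 3) (by norm_num)
    refine h7.trans ?_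
    have h8 := Real.pow_div_factorial_le_exp (300 : ℝ) (by norm_num) 2
    have h9 : (Nat.factorial 2 : ℝ) = 2 := by norm_num [Nat.factorial]
    rw [h9] at h8
    have h10 : (512 : ℝ) ≤ Real.exp 300 := le_trans (by norm_num) h8
    have h11 : 64 * (2 * Real.exp (r * l)) ^ 3 = 512 * Real.exp (3 * (r * l)) := by
      rw [mul_pow, ← Real.exp_nat_mul]
      push_cast
      ring
    rw [h11]
    calc 512 * Real.exp (3 * (r * l)) ≤ Real.exp 300 * Real.exp (3 * (r * l)) :=
          mul_le_mul_of_nonneg_right h10 (Real.exp_pos _).le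
      _ = Real.exp (300 + 3 * (r * l)) := (Real.exp_add _ _).symm
      _ ≤ Real.exp (3 * l ^ 2 / 16) := by
        refine Real.exp_le_exp.2 ?_
        nlinarith [mul_le_mul_of_nonneg_right h3 hl0.le]

theorem stmt_DEL : Stmt_DEL.{u} := by
  intro c r hc hr
  obtain ⟨d0, hd0⟩ := nums c r hc hr
  refine ⟨d0, ?_⟩
  intro V Γ K _ _ _ d A p Bd w μ W hd hp hA hne h1 h2 h3 h4 h5 hw hW hk1 hk2 hμ
  obtain ⟨hdp, hlog, hn1, hn2⟩ := hd0 d hd
  have hdr : (0 : ℝ) < d := by exact_mod_cast hdp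
  have hdc : (0 : ℝ) < (d : ℝ) ^ c := Real.rpow_pos_of_pos hdr _
  have hdr' : (0 : ℝ) < (d : ℝ) ^ r := Real.rpow_pos_of_pos hdr _
  have hterm : ∀ k γ, 0 ≤ (p γ : ℝ) * (∑ v ∈ A γ, w k γ v) / (A γ).card := fun k γ =>
    div_nonneg (mul_nonneg (Nat.cast_nonneg _) (sum_nonneg fun v hv => (hw k γ v hv).1))
      (Nat.cast_nonneg _)
  have hμ0 : ∀ k, 0 ≤ μ k := fun k => (sum_nonneg fun γ _ => hterm k γ).trans (hμ k)
  have H : DH (K := {k : K // 0 < W k}) A p Bd
      (fun γ => univ.filter (fun γ' => ∃ v ∈ A γ, ∃ w ∈ A γ', Bd γ v γ' w ∨ Bd γ' w γ v))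
      (fun k γ v => if v ∈ A γ then w k.1 γ v else 0)
      (fun k => univ.filter (fun γ => ∃ v ∈ A γ, w k.1 γ v ≠ 0))
      (fun k => μ k.1) (fun k => W k.1) ((d : ℝ) ^ c) ((Real.log d) ^ 2) ((d : ℝ) ^ r) := by
    refine
      { A0 := hne
        Λ0 := hdc
        L0 := by positivity
        B0 := hdr'.le
        pΛ := hp
        pB := ?_
        nb := ?_
        D1 := h5
        D2 := ?_
        wmx := fun g g' hg v' hv' => h2 g g' (fun h => hg h.symm) v' hv'
        mux := ?_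
        self := h4
        sym := h3
        w0 := ?_
        W0 := fun k => k.2
        wW := ?_
        μ0 := fun k => hμ0 _
        Su0 := ?_
        T1 := fun k => hk1 k.1
        T2 := ?_
        mtx := ?_
        ΛL := hn1
        num := hn2 }
    · intro g
      obtain ⟨v, hv⟩ := hne g
      have e1 := h4 g v hv
      have e2 : 1 ≤ ((A g).filter (fun v' => v' = v ∨ Bd g v' g v)).card :=
        card_pos.2 ⟨v, mem_filter.2 ⟨hv, Or.inl rfl⟩⟩
      have e3 : (1 : ℝ) ≤ ((A g).filter (fun v' => v' = v ∨ Bd g v' g v)).card := by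
        exact_mod_cast e2
      have e4 : (p g : ℝ) ≤ 20 * (p g : ℝ) *
          ((A g).filter (fun v' => v' = v ∨ Bd g v' g v)).card := by
        have e5 : (0 : ℝ) ≤ p g := Nat.cast_nonneg _
        nlinarith
      exact e4.trans (e1.trans (hA g))
    · intro g g' _ v hv v' hv' hb
      exact mem_filter.2 ⟨mem_univ _, v, hv, v', hv', Or.inl hb⟩
    · intro g
      refine le_trans ?_ (h5 g)
      have e1 : univ.filter (fun h => g ∈ univ.filter (fun γ' => ∃ v ∈ A h, ∃ w ∈ A γ',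
          Bd h v γ' w ∨ Bd γ' w h v)) ⊆ univ.filter (fun γ' => ∃ v ∈ A g, ∃ w ∈ A γ',
            Bd g v γ' w ∨ Bd γ' w g v) := by
        intro h hh
        obtain ⟨v, hv, v', hv', hb⟩ := (mem_filter.1 (mem_filter.1 hh).2).2
        exact mem_filter.2 ⟨mem_univ _, v', hv', v, hv, hb.symm⟩
      exact_mod_cast card_le_card e1
    · intro g
      have e1 : ∀ g', ∑ v' ∈ A g', (((A g).filter (fun v => Bd g v g' v')).card : ℝ) =
          ∑ v ∈ A g, (((A g').filter (fun v' => Bd g v g' v')).card : ℝ) := by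
        intro g'
        have e2 : ∑ v' ∈ A g', ((A g).filter (fun v => Bd g v g' v')).card =
            ∑ v ∈ A g, ((A g').filter (fun v' => Bd g v g' v')).card := by
          simp only [card_filter]
          exact sum_comm
        exact_mod_cast e2
      have e3 : ∑ g' ∈ (univ.filter (fun γ' => ∃ v ∈ A g, ∃ w ∈ A γ',
            Bd g v γ' w ∨ Bd γ' w g v)).filter (fun g' => g' ≠ g), (p g' : ℝ) *
          (∑ v' ∈ A g', (((A g).filter (fun v => Bd g v g' v')).card : ℝ)) / (A g').card ≤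
          ∑ g' ∈ univ.filter (fun γ' => γ' ≠ g), (p g' : ℝ) *
          (∑ v' ∈ A g', (((A g).filter (fun v => Bd g v g' v')).card : ℝ)) / (A g').card := by
        refine sum_le_sum_of_subset_of_nonneg ?_ fun g' _ _ => by positivity
        intro g' hg'
        exact mem_filter.2 ⟨mem_univ _, (mem_filter.1 hg').2⟩
      refine e3.trans ?_
      have e4 : ∑ g' ∈ univ.filter (fun γ' => γ' ≠ g), (p g' : ℝ) *
          (∑ v' ∈ A g', (((A g).filter (fun v => Bd g v g' v')).card : ℝ)) / (A g').card =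
          ∑ v ∈ A g, ∑ g' ∈ univ.filter (fun γ' => γ' ≠ g), (p g' : ℝ) *
            ((A g').filter (fun w => Bd g v g' w)).card / (A g').card := by
        rw [sum_comm]
        refine sum_congr rfl fun g' _ => ?_
        rw [e1 g', mul_sum, sum_div]
      rw [e4]
      refine (sum_le_sum fun v hv => h1 g v hv).trans ?_
      rw [sum_const, nsmul_eq_mul]
      linarith
    · intro k g v
      split_ifs with hv
      · exact (hw k.1 g v hv).1
      · exact le_rfl
    · intro k g v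
      split_ifs with hv
      · exact (hw k.1 g v hv).2
      · exact k.2.le
    · intro k g hg v hv
      rw [if_pos hv]
      by_contra h
      exact hg (mem_filter.2 ⟨mem_univ _, v, hv, h⟩)
    · intro g
      refine le_trans ?_ (hk2 g)
      have e1 : ((univ.filter (fun k : {k : K // 0 < W k} => g ∈ univ.filter (fun γ =>
          ∃ v ∈ A γ, w k.1 γ v ≠ 0))).image Subtype.val) ⊆
          univ.filter (fun k => ∃ v ∈ A g, w k g v ≠ 0) := by
        intro k hk
        obtain ⟨k', hk', rfl⟩ := mem_image.1 hk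
        exact mem_filter.2 ⟨mem_univ _, (mem_filter.1 (mem_filter.1 hk').2).2⟩
      have e2 := card_le_card e1
      rw [card_image_of_injective _ Subtype.val_injective] at e2
      exact_mod_cast e2
    · intro k
      refine le_trans ?_ (hμ k.1)
      have e1 : ∀ g, (p g : ℝ) * (∑ v ∈ A g, if v ∈ A g then w k.1 g v else 0) / (A g).card =
          (p g : ℝ) * (∑ v ∈ A g, w k.1 g v) / (A g).card := by
        intro g
        rw [sum_congr rfl fun v hv => if_pos hv]
      rw [sum_congr rfl fun g _ => e1 g]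
      exact sum_le_sum_of_subset_of_nonneg (subset_univ _) fun g _ _ => hterm _ _
  obtain ⟨S, hS1, hS2, hS3, hS4⟩ := core H
  refine ⟨S, hS1, hS2, hS3, fun k => ?_⟩
  rcases (hW k).eq_or_lt with h0 | h0
  · have e1 : ∑ γ, ∑ v ∈ S γ, w k γ v = 0 := by
      refine sum_eq_zero fun γ _ => sum_eq_zero fun v hv => ?_
      have := hw k γ v (hS1 γ hv)
      rw [← h0] at this
      exact le_antisymm this.2 this.1
    rw [e1, ← h0, zero_mul, add_zero]
    have := hμ0 k
    positivity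
  · refine le_trans (le_of_eq ?_) (hS4 ⟨k, h0⟩)
    refine sum_congr rfl fun γ _ => sum_congr rfl fun v hv => ?_
    dsimp only
    rw [if_pos (hS1 γ hv)]

end Pool.Agent.Work.MP_db9399_oc.helper83
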